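import Pool.Agent.T9h31.NA.FreeP
import Pool.Agent.T9h8.NA.Domain
import Pool.Agent.T9h82.NA.Retract

/-!
# MP_954e53_ag.NegativeAnswer: `X_v^3, X_{v'}^3` is a regular pair in `R`; consequence for `S`
-/

namespace Pool.Agent.T9h46.NA

open MvPolynomial Pool.Agent.T9h29.NA

set_option linter.unusedSectionVars false

universe u

section general

variable {K : Type u} [Field K] {B : Type} [Fintype B] [DecidableEq B] {ι : B → Type}
  [∀ b, Fintype (ι b)] [∀ b, DecidableEq (ι b)] {r e : B → ℕ}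
  (M : ∀ b, Matrix (Fin (r b)) (ι b) K) (Sp : ∀ b, Split (e := e b) (M b))

/-- The linear forms `ℓ_v` are prime elements of `P`. -/
theorem prime_ell (hM : ∀ b, AllMinors (M b)) (hc : ∀ b, r b + 2 ≤ Fintype.card (ι b))
    (v : Var ι) : Prime (ell M Sp v) := by
  rw [T9h8.NA.ell_eq_lf]
  exact T9h8.NA.prime_lf (T9h8.NA.lam_ne_zero M Sp hM hc v)

/-- Different linear forms `ℓ_v` do not divide each other. -/
theorem ell_not_dvd (hM : ∀ b, AllMinors (M b)) (hc : ∀ b, r b + 2 ≤ Fintype.card (ι b))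
    {v v' : Var ι} (hv : v ≠ v') : ¬ ell M Sp v ∣ ell M Sp v' := by
  rw [T9h8.NA.ell_eq_lf, T9h8.NA.ell_eq_lf]
  intro h
  obtain ⟨k, hk⟩ := T9h8.NA.proportional_of_dvd (T9h8.NA.lam_ne_zero M Sp hM hc v)
    (T9h8.NA.lam_ne_zero M Sp hM hc v') h
  exact T9h8.NA.lam_pair M Sp hM hc v v' hv k hk

/-- Divisibility in `R` by elements of `P` is divisibility of all coordinates. -/
theorem psi_dvd_iff (p : Pg K e) (y : Rg M) :
    psi M Sp p ∣ y ↔ ∀ a, p ∣ T9h31.NA.Nbar M Sp y a := by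
  constructor
  · rintro ⟨t, rfl⟩ a
    rw [T9h31.NA.Nbar_psi]
    exact ⟨_, rfl⟩
  · intro h
    choose q hq using h
    refine ⟨∑ a, psi M Sp (q a) * Xa M a, ?_⟩
    conv_lhs => rw [T9h31.NA.sum_Nbar M Sp y]
    rw [Finset.mul_sum]
    refine Finset.sum_congr rfl fun a _ => ?_
    rw [hq a, map_mul, mul_assoc]

include Sp in
/-- `X_v^3, X_{v'}^3` is a regular pair in `R`. -/
theorem pair_R (hM : ∀ b, AllMinors (M b)) (hc : ∀ b, r b + 2 ≤ Fintype.card (ι b))
    {v v' : Var ι} (hv : v ≠ v') {y : Rg M}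
    (h : Ideal.Quotient.mk (idl M) (X v ^ 3) ∣ Ideal.Quotient.mk (idl M) (X v' ^ 3) * y) :
    Ideal.Quotient.mk (idl M) (X v ^ 3) ∣ y := by
  rw [← T9h31.NA.psi_ell M Sp v] at h ⊢
  rw [← T9h31.NA.psi_ell M Sp v'] at h
  rw [psi_dvd_iff] at h ⊢
  intro a
  have h1 := h a
  rw [T9h31.NA.Nbar_psi, Pi.smul_apply, smul_eq_mul] at h1
  rcases (prime_ell M Sp hM hc v).dvd_or_dvd h1 with h2 | h2
  · exact absurd h2 (ell_not_dvd M Sp hM hc hv)
  · exact h2

include Sp in
/-- **[H]**: for `x = X_v^3 A`, `y = X_{v'}^3 A'` in `S`, where `A B = T = A' B'` in `R` and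
`T ∈ S`: if `x` divides `y s` in `S`, then `x` divides `T^2 s` in `S`. -/
theorem pair_S {A : Type*} [AddCommGroup A] (w : Var ι → A) (hw : ∀ v, 3 • w v = 0)
    (hM : ∀ b, AllMinors (M b)) (hc : ∀ b, r b + 2 ≤ Fintype.card (ι b))
    {v v' : Var ι} (hv : v ≠ v') {a b a' b' : Rg M} {x y T s : Stot M w}
    (hab : a * b = T) (hab' : a' * b' = T)
    (hx : (x : Rg M) = Ideal.Quotient.mk (idl M) (X v ^ 3) * a)
    (hy : (y : Rg M) = Ideal.Quotient.mk (idl M) (X v' ^ 3) * a')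
    (h : x ∣ y * s) : x ∣ T ^ 2 * s := by
  obtain ⟨t, ht⟩ := h
  have h1 : Ideal.Quotient.mk (idl M) (X v' ^ 3) * (a' * (s : Rg M)) =
      Ideal.Quotient.mk (idl M) (X v ^ 3) * (a * (t : Rg M)) := by
    have := congrArg (Subtype.val) ht
    simp only [MulMemClass.coe_mul, hx, hy] at this
    rw [← mul_assoc, this, mul_assoc]
  obtain ⟨g, hg⟩ := pair_R M Sp hM hc hv ⟨_, h1⟩
  obtain ⟨ρ, hρ⟩ := T9h82.NA.exists_retraction w hw M
  refine ⟨ρ (b * g * b'), ?_⟩
  have h2 : ((T ^ 2 * s : Stot M w) : Rg M) = (x : Rg M) * (b * g * b') := by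
    have h3 : ((T ^ 2 * s : Stot M w) : Rg M) = (T : Rg M) ^ 2 * (s : Rg M) := by
      simp
    have h4 : (T : Rg M) ^ 2 * (s : Rg M) = (a * b) * (a' * b') * (s : Rg M) := by
      rw [hab, hab', pow_two]
    have h5 : (a * b) * (a' * b') * (s : Rg M) = a * b * b' * (a' * (s : Rg M)) := by ring
    rw [h3, h4, h5, hg, hx]
    ring
  have h6 : ρ ((T ^ 2 * s : Stot M w) : Rg M) = T ^ 2 * s := hρ _
  rw [← h6, h2]
  have h7 : (x : Rg M) * (b * g * b') = x • (b * g * b') := rfl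
  rw [h7, map_smul, smul_eq_mul]

/-- At a prime of height one containing `x ≠ 0` and `y`, some power of `y` is divisible by `x`
up to an element outside the prime. -/
theorem exists_pow_of_height_one {S : Type*} [CommRing S] [IsDomain S] (p : Ideal S)
    [hp : p.IsPrime] (h1 : p.height = 1) {x y : S} (hx : x ∈ p) (hx0 : x ≠ 0) (hy : y ∈ p) :
    ∃ u ∉ p, ∃ n : ℕ, x ∣ y ^ n * u := by
  have hmin : p ∈ (Ideal.span {x}).minimalPrimes := by
    refine ⟨⟨hp, (Ideal.span_singleton_le_iff_mem _).2 hx⟩, ?_⟩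
    rintro q ⟨hq, hxq⟩ hqp
    by_contra hne
    have hlt : q < p := lt_of_le_of_ne hqp (fun h => hne h.ge)
    have h2 := Ideal.height_add_one_le_of_lt_of_isPrime hlt
    rw [h1] at h2
    have h3 : q.height = 0 := by
      by_contra h4
      have h5 : (1 : ℕ∞) ≤ q.height := Order.one_le_iff_pos.2 (pos_iff_ne_zero.2 h4)
      have h6 : (1 : ℕ∞) + 1 ≤ 1 := (add_le_add_left h5 1).trans h2
      exact absurd h6 (by decide)
    rw [Ideal.height_eq_zero_iff_eq_bot] at h3
    rw [h3, Ideal.span_singleton_le_iff_mem, Ideal.mem_bot] at hxq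
    exact hx0 hxq
  have h2 := IsLocalization.AtPrime.radical_map_of_mem_minimalPrimes
    (A := Localization.AtPrime p) p (Ideal.span {x}) hmin
  have h3 : algebraMap S (Localization.AtPrime p) y ∈
      ((Ideal.span {x}).map (algebraMap S (Localization.AtPrime p))).radical := by
    rw [h2]
    exact Ideal.mem_map_of_mem _ hy
  obtain ⟨n, hn⟩ := h3
  rw [← map_pow, IsLocalization.algebraMap_mem_map_algebraMap_iff p.primeCompl] at hn
  obtain ⟨u, hu, hun⟩ := hn
  refine ⟨u, hu, n, ?_⟩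
  rw [← Ideal.mem_span_singleton, mul_comm]
  exact hun

include Sp in
/-- At a prime of `S` of height one which does not contain `T`, at most one of the elements
`X_v^3 A_v` (`A_v` a divisor of `T` in `R`) vanishes. -/
theorem notMem_of_height_one {A : Type*} [AddCommGroup A] (w : Var ι → A)
    (hw : ∀ v, 3 • w v = 0) [IsDomain (Stot M w)]
    (hM : ∀ b, AllMinors (M b)) (hc : ∀ b, r b + 2 ≤ Fintype.card (ι b))
    {v v' : Var ι} (hv : v ≠ v') {a b a' b' : Rg M} {x y T : Stot M w}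
    (hab : a * b = T) (hab' : a' * b' = T)
    (hx : (x : Rg M) = Ideal.Quotient.mk (idl M) (X v ^ 3) * a)
    (hy : (y : Rg M) = Ideal.Quotient.mk (idl M) (X v' ^ 3) * a')
    (p : Ideal (Stot M w)) [hp : p.IsPrime] (h1 : p.height = 1) (hT : T ∉ p) (hx0 : x ≠ 0)
    (hxp : x ∈ p) : y ∉ p := by
  intro hyp
  obtain ⟨u, hu, n, hn⟩ := exists_pow_of_height_one p h1 hxp hx0 hyp
  have key : ∀ k s, x ∣ y ^ k * s → x ∣ T ^ (2 * k) * s := by
    intro k
    induction k with
    | zero => intro s h; simpa using h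
    | succ k ih =>
      intro s h
      have h2 : x ∣ y * (y ^ k * s) := by rwa [← mul_assoc, ← pow_succ']
      have h3 := pair_S M Sp w hw hM hc hv hab hab' hx hy h2
      have h4 : x ∣ y ^ k * (T ^ 2 * s) := by
        rwa [mul_left_comm] at h3
      have h5 := ih _ h4
      rwa [← mul_assoc, ← pow_add, show 2 * k + 2 = 2 * (k + 1) by ring] at h5
  have h2 := p.mem_of_dvd (key n u hn) hxp
  rcases hp.mem_or_mem h2 with h3 | h3
  · exact hT (hp.mem_of_pow_mem _ h3)
  · exact hu h3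

end general

end Pool.Agent.T9h46.NA
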