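import Pool.Agent.T9h22.RS.Data
import Pool.Agent.T9h46.NA.Pair
import Pool.Agent.T9h82.NA.Primary
import Pool.Agent.T9h8.NA.Normal

/-!
# MP_954e53_ag.NegativeAnswer: quotients of monomials in the fraction field of `S`
-/

namespace Pool.Agent.T9h46.NA

open MvPolynomial Pool.Agent.T9h29.NA Pool.Agent.T9h22.RS

set_option linter.unusedSectionVars false

universe u

variable {K : Type u} [Field K] {B : Type} [Fintype B] [DecidableEq B] {ι : B → Type}
  [∀ b, Fintype (ι b)] [∀ b, DecidableEq (ι b)] {r e : B → ℕ}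

section exponents

/-- The exponent vector `k b` at the coordinate `c b` of the block `b`. -/
noncomputable def expc (k : B → ℕ) (c : ∀ b, ι b) : Var ι →₀ ℕ :=
  Finsupp.equivFunOnFinite.symm fun v => if v.2 = c v.1 then k v.1 else 0

/-- The constant exponent vector. -/
noncomputable def expk (k : ℕ) : Var ι →₀ ℕ := Finsupp.equivFunOnFinite.symm fun _ => k

theorem expc_apply (k : B → ℕ) (c : ∀ b, ι b) (v : Var ι) :
    expc k c v = if v.2 = c v.1 then k v.1 else 0 := rfl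

theorem expk_apply (k : ℕ) (v : Var ι) : expk k v = k := rfl

theorem bdeg_expc (k : B → ℕ) (c : ∀ b, ι b) (b : B) : bdeg (expc k c) b = k b := by
  unfold bdeg
  simp only [expc_apply]
  rw [Finset.sum_ite_eq' Finset.univ (c b) (fun _ => k b), if_pos (Finset.mem_univ _)]

theorem bdeg_expk (k : ℕ) (b : B) : bdeg (expk (ι := ι) k) b = Fintype.card (ι b) * k := by
  unfold bdeg
  simp only [expk_apply, Finset.sum_const, Finset.card_univ, smul_eq_mul]

theorem wgt_expc {A : Type*} [AddCommGroup A] (w : Var ι → A) (hw : ∀ v, 3 • w v = 0)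
    (k : B → ℕ) (c : ∀ b, ι b) : wgt w (expc (fun b => 3 * k b) c) = 0 := by
  unfold wgt
  refine Finset.sum_eq_zero fun v _ => ?_
  rw [expc_apply]
  split_ifs
  · rw [mul_comm, mul_smul, hw, smul_zero]
  · rw [zero_smul]

theorem wgt_expk {A : Type*} [AddCommGroup A] (w : Var ι → A) (hsum : ∀ b, ∑ c, w ⟨b, c⟩ = 0)
    (k : ℕ) : wgt w (expk k) = 0 := by
  unfold wgt
  simp only [expk_apply]
  rw [← Finset.smul_sum, Fintype.sum_sigma, Finset.sum_eq_zero fun b _ => hsum b, smul_zero]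

theorem prod_expc {E : Type*} [CommMonoid E] (x : Var ι → E) (k : B → ℕ) (c : ∀ b, ι b) :
    ∏ v, x v ^ expc k c v = ∏ b, x ⟨b, c b⟩ ^ k b := by
  rw [Fintype.prod_sigma]
  refine Finset.prod_congr rfl fun b _ => ?_
  rw [Finset.prod_eq_single (c b)]
  · rw [expc_apply, if_pos rfl]
  · intro c' _ h
    rw [expc_apply, if_neg h, pow_zero]
  · intro h; exact absurd (Finset.mem_univ _) h

theorem prod_single {E : Type*} [CommMonoid E] (x : Var ι → E) (v : Var ι) (k : ℕ) :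
    ∏ v', x v' ^ (Finsupp.single v k) v' = x v ^ k := by
  rw [Finset.prod_eq_single v]
  · rw [Finsupp.single_eq_same]
  · intro v' _ h
    rw [Finsupp.single_eq_of_ne h, pow_zero]
  · intro h; exact absurd (Finset.mem_univ _) h

end exponents

variable (M : ∀ b, Matrix (Fin (r b)) (ι b) K) {A : Type*} [AddCommGroup A] (w : Var ι → A)

theorem mk_monomial (m : Var ι →₀ ℕ) :
    Ideal.Quotient.mk (idl M) (monomial m (1 : K)) =
      ∏ v, Ideal.Quotient.mk (idl M) (X v) ^ m v := by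
  rw [monomial_eq, C_1, one_mul, Finsupp.prod_fintype _ _ (fun _ => pow_zero _), map_prod]
  simp only [map_pow]

theorem mk_X_ne_zero (hM : ∀ b, AllMinors (M b)) (hc : ∀ b, Fintype.card (ι b) = 3 * r b + 1)
    (hr : ∀ b, 1 ≤ r b) (v : Var ι) : Ideal.Quotient.mk (idl M) (X v) ≠ 0 := by
  intro h
  have Sp : ∀ b, Split (e := 2 * r b) (M b) := fun b =>
    (T9h31.NA.exists_split (M b) (hM b) (by rw [hc b]; ring)).some
  have h1 : psi M Sp (ell M Sp v) = 0 := by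
    rw [T9h31.NA.psi_ell, map_pow, h, zero_pow three_ne_zero]
  have h2 := T9h8.NA.psi_injective M Sp (h1.trans (map_zero _).symm)
  exact (prime_ell M Sp hM (fun b => by rw [hc b]; have := hr b; omega) v).ne_zero h2

variable [IsDomain (Rg M)]

theorem xE_ne_zero (hM : ∀ b, AllMinors (M b)) (hc : ∀ b, Fintype.card (ι b) = 3 * r b + 1)
    (hr : ∀ b, 1 ≤ r b) (v : Var ι) : xE M v ≠ 0 := by
  unfold xE
  rw [Ne, ← map_zero (algebraMap (Rg M) (ER M)), (IsFractionRing.injective (Rg M) (ER M)).eq_iff]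
  exact mk_X_ne_zero M hM hc hr v

theorem algebraMap_monomial (m : Var ι →₀ ℕ) :
    algebraMap (Rg M) (ER M) (Ideal.Quotient.mk (idl M) (monomial m (1 : K))) =
      ∏ v, xE M v ^ m v := by
  rw [mk_monomial, map_prod]
  simp only [map_pow]
  rfl

theorem monomial_mem_Stot {m : Var ι →₀ ℕ} {n : ℕ} (hm : m ∈ Good w n) :
    Ideal.Quotient.mk (idl M) (monomial m (1 : K)) ∈ Stot M w :=
  T9h82.NA.mem_Stot w M n (T9h82.NA.mk_mem_Sn w M n
    (by rw [monomial_mem_restrictSupport]; exact Or.inl hm))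

/-- quotients of monomials in `F` -/
theorem exists_emb (hM : ∀ b, AllMinors (M b)) (hc : ∀ b, Fintype.card (ι b) = 3 * r b + 1)
    (hr : ∀ b, 1 ≤ r b) (hw : ∀ v, 3 • w v = 0) (m m' : Var ι →₀ ℕ) (h : wgt w m = wgt w m')
    (hd : ∀ b b', bdeg m b + bdeg m' b' = bdeg m b' + bdeg m' b) :
    ∃ z, emb M w z = (∏ v, xE M v ^ m v) / ∏ v, xE M v ^ m' v := by
  have hne : ∀ b, Nonempty (ι b) := fun b =>
    Fintype.card_pos_iff.1 (by rw [hc b]; omega)
  let c : ∀ b, ι b := fun b => (hne b).some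
  set s : ℕ := ∑ b, bdeg m' b with hs
  have hle : ∀ b, bdeg m' b ≤ s := fun b =>
    Finset.single_le_sum (f := fun b => bdeg m' b) (fun _ _ => Nat.zero_le _) (Finset.mem_univ b)
  set q : Var ι →₀ ℕ := expc (fun b => 3 * (s - bdeg m' b)) c with hq
  have hqd : ∀ b, bdeg q b = 3 * (s - bdeg m' b) := fun b => bdeg_expc _ _ b
  have hqw : wgt w q = 0 := wgt_expc w hw _ _
  set D : Var ι →₀ ℕ := m' + m' + m' + q with hD
  set N : Var ι →₀ ℕ := m + m' + m' + q with hN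
  have hw3 : wgt w m' + wgt w m' + wgt w m' = 0 := by
    unfold wgt
    rw [← Finset.sum_add_distrib, ← Finset.sum_add_distrib]
    refine Finset.sum_eq_zero fun v _ => ?_
    have := hw v
    have h3 : m' v • w v + m' v • w v + m' v • w v = m' v • (3 • w v) := by
      rw [show (3 : ℕ) • w v = w v + w v + w v by rw [succ_nsmul, two_nsmul], smul_add, smul_add]
    rw [h3, this, smul_zero]
  have hDg : D ∈ Good w (3 * s) := by
    refine ⟨fun b => ?_, ?_⟩
    · rw [hD, T9h82.NA.bdeg_add, T9h82.NA.bdeg_add, T9h82.NA.bdeg_add, hqd]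
      have := hle b
      omega
    · rw [hD, T9h82.NA.wgt_add, T9h82.NA.wgt_add, T9h82.NA.wgt_add, hqw, add_zero, hw3]
  have hNg : ∃ n, N ∈ Good w n := by
    have hwN : wgt w N = 0 := by
      rw [hN, T9h82.NA.wgt_add, T9h82.NA.wgt_add, T9h82.NA.wgt_add, hqw, add_zero, h, hw3]
    rcases isEmpty_or_nonempty B with hB | ⟨⟨b0⟩⟩
    · exact ⟨0, fun b => (hB.false b).elim, hwN⟩
    · refine ⟨bdeg N b0, fun b => ?_, hwN⟩
      rw [hN]
      simp only [T9h82.NA.bdeg_add, hqd]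
      have h1 := hle b
      have h2 := hle b0
      have h3 := hd b b0
      omega
  obtain ⟨n, hNg⟩ := hNg
  refine ⟨algebraMap (Stot M w) (FS M w) ⟨_, monomial_mem_Stot M w hNg⟩ /
    algebraMap (Stot M w) (FS M w) ⟨_, monomial_mem_Stot M w hDg⟩, ?_⟩
  rw [map_div₀, emb_algebraMap, emb_algebraMap]
  simp only
  rw [algebraMap_monomial, algebraMap_monomial]
  have hx : ∀ m : Var ι →₀ ℕ, ∏ v, xE M v ^ m v ≠ 0 := fun m =>
    Finset.prod_ne_zero_iff.2 fun v _ => pow_ne_zero _ (xE_ne_zero M hM hc hr v)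
  have hadd : ∀ m m' : Var ι →₀ ℕ, ∏ v, xE M v ^ (m + m') v =
      (∏ v, xE M v ^ m v) * ∏ v, xE M v ^ m' v := by
    intro m m'
    rw [← Finset.prod_mul_distrib]
    refine Finset.prod_congr rfl fun v _ => ?_
    rw [Finsupp.add_apply, pow_add]
  rw [hN, hD, hadd, hadd, hadd, hadd, hadd, hadd, div_eq_div_iff (by
    simp only [mul_ne_zero_iff]; exact ⟨⟨⟨hx _, hx _⟩, hx _⟩, hx _⟩) (hx _)]
  ring

theorem emb_T (hM : ∀ b, AllMinors (M b)) (hc : ∀ b, Fintype.card (ι b) = 3 * r b + 1)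
    (hr : ∀ b, 1 ≤ r b) (hw : ∀ v, 3 • w v = 0) (ch : ∀ b, Fin (e b + 1) ↪ ι b) :
    emb M w (T M w ch) = ∏ b, xE M ⟨b, ch b 0⟩ ^ 3 := by
  refine emb_pre M w ?_
  obtain ⟨z, hz⟩ := exists_emb M w hM hc hr hw (expc (fun _ => 3 * 1) fun b => ch b 0) 0
    (by rw [wgt_expc w hw]; simp [wgt]) (fun b b' => by rw [bdeg_expc, bdeg_expc]; simp [bdeg])
  refine ⟨z, ?_⟩
  rw [hz, prod_expc]
  simp

theorem emb_U (hM : ∀ b, AllMinors (M b)) (hc : ∀ b, Fintype.card (ι b) = 3 * r b + 1)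
    (hr : ∀ b, 1 ≤ r b) (hw : ∀ v, 3 • w v = 0) (ch : ∀ b, Fin (e b + 1) ↪ ι b) (v : Var ι) :
    emb M w (U M w ch v) = xE M v ^ 3 / xE M ⟨v.1, ch v.1 0⟩ ^ 3 := by
  refine emb_pre M w ?_
  obtain ⟨z, hz⟩ := exists_emb M w hM hc hr hw (Finsupp.single v 3)
    (Finsupp.single ⟨v.1, ch v.1 0⟩ 3)
    (by rw [T9h82.NA.wgt_single, T9h82.NA.wgt_single, hw, hw])
    (fun b b' => by simp only [T9h82.NA.bdeg_single]; ring)
  refine ⟨z, ?_⟩
  rw [hz, prod_single, prod_single]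

theorem emb_Psi (hM : ∀ b, AllMinors (M b)) (hc : ∀ b, Fintype.card (ι b) = 3 * r b + 1)
    (hr : ∀ b, 1 ≤ r b) (hw : ∀ v, 3 • w v = 0) (hsum : ∀ b, ∑ c, w ⟨b, c⟩ = 0)
    (ch : ∀ b, Fin (e b + 1) ↪ ι b) :
    emb M w (Psi M w ch) =
      (∏ b, xE M ⟨b, ch b 0⟩ ^ (3 * (2 * r b + 1))) / ∏ v, xE M v ^ 2 := by
  refine emb_pre M w ?_
  obtain ⟨z, hz⟩ := exists_emb M w hM hc hr hw
    (expc (fun b => 3 * (2 * r b + 1)) fun b => ch b 0) (expk 2)
    (by rw [wgt_expc w hw, wgt_expk w hsum])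
    (fun b b' => by simp only [bdeg_expc, bdeg_expk, hc]; ring)
  refine ⟨z, ?_⟩
  rw [hz, prod_expc]
  rfl

/-- `∑_v M_jv U_v = 0` in every block -/
theorem sum_M_U (hM : ∀ b, AllMinors (M b)) (hc : ∀ b, Fintype.card (ι b) = 3 * r b + 1)
    (hr : ∀ b, 1 ≤ r b) (hw : ∀ v, 3 • w v = 0) (ch : ∀ b, Fin (e b + 1) ↪ ι b) (b : B)
    (j : Fin (r b)) : ∑ c, algebraMap K (FS M w) (M b j c) * U M w ch ⟨b, c⟩ = 0 := by
  apply emb_injective M w
  rw [map_sum, map_zero]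
  have h1 : ∀ c, emb M w (algebraMap K (FS M w) (M b j c) * U M w ch ⟨b, c⟩) =
      algebraMap K (ER M) (M b j c) * xE M ⟨b, c⟩ ^ 3 / xE M ⟨b, ch b 0⟩ ^ 3 := by
    intro c
    rw [map_mul, AlgHom.commutes, emb_U M w hM hc hr hw ch ⟨b, c⟩, mul_div_assoc]
  rw [Finset.sum_congr rfl fun c _ => h1 c, ← Finset.sum_div]
  have h2 : ∑ c, algebraMap K (ER M) (M b j c) * xE M ⟨b, c⟩ ^ 3 = 0 := by
    have h3 : algebraMap (Rg M) (ER M) (Ideal.Quotient.mk (idl M) (cubic M b j)) = 0 := by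
      rw [T9h31.NA.mk_cubic, map_zero]
    rw [← h3, cubic, map_sum, map_sum]
    refine Finset.sum_congr rfl fun c _ => ?_
    rw [map_mul, map_mul, map_pow, map_pow]
    rfl
  rw [h2, zero_div]

end Pool.Agent.T9h46.NA
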