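import Pool.Agent.T9h29.NA.Defs

/-!
# MP_954e53_ag.NegativeAnswer: `S` is graded by the `S_n`
-/

namespace Pool.Agent.T9h46.NA

open MvPolynomial Pool.Agent.T9h29.NA
open scoped Pointwise

universe u

section prj

variable {K : Type u} [Field K] {σ : Type*}

open scoped Classical in
/-- The projection of polynomials to the monomials with exponents in `s`. -/
noncomputable def prj (s : Set (σ →₀ ℕ)) : MvPolynomial σ K →ₗ[K] MvPolynomial σ K :=
  (basisMonomials σ K).constr K fun m => if m ∈ s then monomial m 1 else 0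

open scoped Classical in
theorem prj_monomial (s : Set (σ →₀ ℕ)) (m : σ →₀ ℕ) (a : K) :
    prj s (monomial m a) = if m ∈ s then monomial m a else 0 := by
  have h1 : monomial m a = a • (basisMonomials σ K) m := by
    rw [coe_basisMonomials, smul_monomial, smul_eq_mul, mul_one]
  rw [h1, map_smul, prj, Module.Basis.constr_basis]
  split_ifs with h
  · rw [coe_basisMonomials]
  · rw [smul_zero]

theorem prj_of_mem {s : Set (σ →₀ ℕ)} {F : MvPolynomial σ K} (hF : F ∈ restrictSupport K s) :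
    prj s F = F := by
  conv_lhs => rw [F.as_sum, map_sum]
  conv_rhs => rw [F.as_sum]
  refine Finset.sum_congr rfl fun m hm => ?_
  rw [prj_monomial, if_pos (hF hm)]

theorem prj_of_disjoint {s t : Set (σ →₀ ℕ)} (hst : Disjoint s t) {F : MvPolynomial σ K}
    (hF : F ∈ restrictSupport K t) : prj s F = 0 := by
  rw [F.as_sum, map_sum]
  refine Finset.sum_eq_zero fun m hm => ?_
  rw [prj_monomial, if_neg]
  exact fun h => Set.disjoint_left.1 hst h (hF hm)

theorem prj_mem (s : Set (σ →₀ ℕ)) (F : MvPolynomial σ K) : prj s F ∈ restrictSupport K s := by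
  rw [F.as_sum, map_sum]
  refine Submodule.sum_mem _ fun m _ => ?_
  rw [prj_monomial]
  split_ifs with h
  · exact (monomial_mem_restrictSupport K).2 (Or.inl h)
  · exact Submodule.zero_mem _

end prj

section general

variable {K : Type u} [Field K] {B : Type} [Fintype B] [DecidableEq B] {ι : B → Type}
  [∀ b, Fintype (ι b)] [∀ b, DecidableEq (ι b)] {r : B → ℕ} {A : Type*} [AddCommGroup A]

omit [Fintype B] [DecidableEq B] [∀ b, DecidableEq (ι b)] in
theorem bdeg_add (m m' : Var ι →₀ ℕ) (b : B) : bdeg (m + m') b = bdeg m b + bdeg m' b := by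
  simp [bdeg, Finset.sum_add_distrib]

omit [DecidableEq B] [∀ b, DecidableEq (ι b)] in
theorem wgt_add (w : Var ι → A) (m m' : Var ι →₀ ℕ) : wgt w (m + m') = wgt w m + wgt w m' := by
  simp [wgt, Finset.sum_add_distrib, add_smul]

omit [DecidableEq B] [∀ b, DecidableEq (ι b)] in
theorem wgt_three (w : Var ι → A) (hw : ∀ v, 3 • w v = 0) (v : Var ι) :
    wgt w (Finsupp.single v 3) = 0 := by
  rw [wgt, Finset.sum_eq_single v]
  · rw [Finsupp.single_eq_same, hw]
  · intro v' _ h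
    rw [Finsupp.single_eq_of_ne (by exact h), zero_smul]
  · simp

omit [Fintype B] [∀ b, DecidableEq (ι b)] in
theorem bdeg_three (v : Var ι) (b : B) :
    bdeg (Finsupp.single v 3) b = if v.1 = b then 3 else 0 := by
  obtain ⟨b', c'⟩ := v
  rw [bdeg]
  split_ifs with h
  · change b' = b at h
    subst h
    rw [Finset.sum_eq_single c']
    · simp
    · intro c _ hc
      rw [Finsupp.single_eq_of_ne]
      intro h
      rw [Sigma.mk.injEq] at h
      exact hc (eq_of_heq h.2)
    · simp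
  · refine Finset.sum_eq_zero fun c _ => ?_
    rw [Finsupp.single_eq_of_ne]
    intro h'
    rw [Sigma.mk.injEq] at h'
    exact h h'.1.symm

/-- The projections preserve the ideal of the cubics. -/
theorem prj_idl (w : Var ι → A) (hw : ∀ v, 3 • w v = 0) (M : ∀ b, Matrix (Fin (r b)) (ι b) K)
    (s : Set (Var ι →₀ ℕ)) (hs : ∀ m m', (∀ b, bdeg m b = bdeg m' b) → wgt w m = wgt w m' →
      m ∈ s → m' ∈ s) {F : MvPolynomial (Var ι) K} (hF : F ∈ idl M) : prj s F ∈ idl M := by
  classical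
  obtain ⟨n, c, g, hcg⟩ := Submodule.mem_span_set'.1 hF
  rw [← hcg, map_sum]
  refine Ideal.sum_mem _ fun i _ => ?_
  obtain ⟨b, j, hbj⟩ := (g i).2
  rw [smul_eq_mul, hbj, (c i).as_sum, Finset.sum_mul, map_sum]
  refine Ideal.sum_mem _ fun m _ => ?_
  -- one monomial times a cubic
  have h1 : monomial m (coeff m (c i)) * cubic M b j =
      ∑ x, monomial (m + Finsupp.single (⟨b, x⟩ : Var ι) 3) (coeff m (c i) * M b j x) := by
    rw [cubic, Finset.mul_sum]
    refine Finset.sum_congr rfl fun x _ => ?_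
    rw [X_pow_eq_monomial, C_mul_monomial, monomial_mul, mul_one]
  have h2 : ∀ x y : ι b, (m + Finsupp.single (⟨b, x⟩ : Var ι) 3) ∈ s →
      (m + Finsupp.single (⟨b, y⟩ : Var ι) 3) ∈ s := by
    intro x y hx
    refine hs _ _ (fun b' => ?_) ?_ hx
    · rw [bdeg_add, bdeg_add, bdeg_three, bdeg_three]
    · rw [wgt_add, wgt_add, wgt_three w hw, wgt_three w hw]
  by_cases hall : ∀ x : ι b, (m + Finsupp.single (⟨b, x⟩ : Var ι) 3) ∈ s
  · have h3 : prj s (monomial m (coeff m (c i)) * cubic M b j) =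
        monomial m (coeff m (c i)) * cubic M b j := by
      rw [h1, map_sum]
      refine Finset.sum_congr rfl fun x _ => ?_
      rw [prj_monomial, if_pos (hall x)]
    rw [h3]
    exact Ideal.mul_mem_left _ _ (Ideal.subset_span ⟨b, j, rfl⟩)
  · push Not at hall
    obtain ⟨x₀, hx₀⟩ := hall
    have h3 : prj s (monomial m (coeff m (c i)) * cubic M b j) = 0 := by
      rw [h1, map_sum]
      refine Finset.sum_eq_zero fun x _ => ?_
      rw [prj_monomial, if_neg]
      exact fun h => hx₀ (h2 x x₀ h)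
    rw [h3]
    exact Ideal.zero_mem _

/-- The projections of `R`. -/
noncomputable def pr (w : Var ι → A) (hw : ∀ v, 3 • w v = 0)
    (M : ∀ b, Matrix (Fin (r b)) (ι b) K)
    (s : Set (Var ι →₀ ℕ)) (hs : ∀ m m', (∀ b, bdeg m b = bdeg m' b) → wgt w m = wgt w m' →
      m ∈ s → m' ∈ s) : Rg M →ₗ[K] Rg M :=
  Submodule.mapQ ((idl M).restrictScalars K) ((idl M).restrictScalars K) (prj s)
    (fun _ hF => prj_idl w hw M s hs hF)

theorem pr_mk (w : Var ι → A) (hw : ∀ v, 3 • w v = 0)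
    (M : ∀ b, Matrix (Fin (r b)) (ι b) K)
    (s : Set (Var ι →₀ ℕ)) (hs : ∀ m m', (∀ b, bdeg m b = bdeg m' b) → wgt w m = wgt w m' →
      m ∈ s → m' ∈ s) (F : MvPolynomial (Var ι) K) :
    pr w hw M s hs (Ideal.Quotient.mk (idl M) F) = Ideal.Quotient.mk (idl M) (prj s F) := rfl

omit [DecidableEq B] [∀ b, DecidableEq (ι b)] in
theorem good_sat (w : Var ι → A) (n : ℕ) (m m' : Var ι →₀ ℕ) (h : ∀ b, bdeg m b = bdeg m' b)
    (h' : wgt w m = wgt w m') (hm : m ∈ Good w n) : m' ∈ Good w n :=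
  ⟨fun b => (h b).symm.trans (hm.1 b), h'.symm.trans hm.2⟩

/-- The projection `R → S_n`. -/
noncomputable def prn (w : Var ι → A) (hw : ∀ v, 3 • w v = 0)
    (M : ∀ b, Matrix (Fin (r b)) (ι b) K) (n : ℕ) : Rg M →ₗ[K] Rg M :=
  pr w hw M (Good w n) (good_sat w n)

theorem prn_mem (w : Var ι → A) (hw : ∀ v, 3 • w v = 0)
    (M : ∀ b, Matrix (Fin (r b)) (ι b) K) (n : ℕ) (x : Rg M) : prn w hw M n x ∈ Sn M w n := by
  obtain ⟨F, rfl⟩ := Ideal.Quotient.mk_surjective x
  exact ⟨prj (Good w n) F, prj_mem _ F, rfl⟩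

theorem prn_of_mem (w : Var ι → A) (hw : ∀ v, 3 • w v = 0)
    (M : ∀ b, Matrix (Fin (r b)) (ι b) K) (n : ℕ) {x : Rg M} (hx : x ∈ Sn M w n) :
    prn w hw M n x = x := by
  obtain ⟨F, hF, rfl⟩ := hx
  change pr w hw M _ _ (Ideal.Quotient.mk (idl M) F) = Ideal.Quotient.mk (idl M) F
  rw [pr_mk, prj_of_mem hF]

theorem prn_of_ne [Nonempty B] (w : Var ι → A) (hw : ∀ v, 3 • w v = 0)
    (M : ∀ b, Matrix (Fin (r b)) (ι b) K) {n m : ℕ} (hnm : n ≠ m) {x : Rg M}
    (hx : x ∈ Sn M w m) : prn w hw M n x = 0 := by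
  obtain ⟨F, hF, rfl⟩ := hx
  change pr w hw M _ _ (Ideal.Quotient.mk (idl M) F) = 0
  rw [pr_mk, prj_of_disjoint _ hF, map_zero]
  rw [Set.disjoint_left]
  intro k h1 h2
  obtain ⟨b⟩ := ‹Nonempty B›
  exact hnm ((h1.1 b).symm.trans (h2.1 b))

omit [DecidableEq B] [∀ b, DecidableEq (ι b)] in
theorem Sn_le (w : Var ι → A) (M : ∀ b, Matrix (Fin (r b)) (ι b) K) (n : ℕ) {x : Rg M}
    (hx : x ∈ Sn M w n) : x ∈ Stot M w :=
  Algebra.subset_adjoin (Set.mem_iUnion.2 ⟨n, hx⟩)

omit [DecidableEq B] [∀ b, DecidableEq (ι b)] in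
theorem one_mem_Sn (w : Var ι → A) (M : ∀ b, Matrix (Fin (r b)) (ι b) K) :
    (1 : Rg M) ∈ Sn M w 0 := by
  refine ⟨1, ?_, map_one (Ideal.Quotient.mk (idl M))⟩
  have h : (1 : MvPolynomial (Var ι) K) = monomial 0 1 := rfl
  rw [h]
  refine (monomial_mem_restrictSupport K).2 (Or.inl ⟨fun b => ?_, ?_⟩)
  · simp [bdeg]
  · simp [wgt]

omit [DecidableEq B] [∀ b, DecidableEq (ι b)] in
theorem mul_mem_Sn (w : Var ι → A) (M : ∀ b, Matrix (Fin (r b)) (ι b) K) {n m : ℕ} {x y : Rg M}
    (hx : x ∈ Sn M w n) (hy : y ∈ Sn M w m) : x * y ∈ Sn M w (n + m) := by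
  obtain ⟨F, hF, rfl⟩ := hx
  obtain ⟨G, hG, rfl⟩ := hy
  refine ⟨F * G, ?_, map_mul (Ideal.Quotient.mk (idl M)) F G⟩
  have h1 : F * G ∈ restrictSupport K (Good w n + Good w m : Set (Var ι →₀ ℕ)) := by
    rw [restrictSupport_add]
    exact Submodule.mul_mem_mul hF hG
  refine restrictSupport_mono K ?_ h1
  rintro _ ⟨k, hk, l, hl, rfl⟩
  refine ⟨fun b => ?_, ?_⟩
  · change bdeg (k + l) b = _
    rw [bdeg_add, hk.1, hl.1]
  · change wgt w (k + l) = _
    rw [wgt_add, hk.2, hl.2, add_zero]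

omit [DecidableEq B] [∀ b, DecidableEq (ι b)] in
instance gradedMonoid (w : Var ι → A) (M : ∀ b, Matrix (Fin (r b)) (ι b) K) :
    SetLike.GradedMonoid (grS M w) where
  one_mem := one_mem_Sn w M
  mul_mem := fun _ _ _ _ hx hy => mul_mem_Sn w M hx hy

omit [DecidableEq B] [∀ b, DecidableEq (ι b)] in
theorem mul_mem_iSup (w : Var ι → A) (M : ∀ b, Matrix (Fin (r b)) (ι b) K) {x y : Rg M}
    (hx : x ∈ ⨆ n, Sn M w n) (hy : y ∈ ⨆ n, Sn M w n) : x * y ∈ ⨆ n, Sn M w n := by
  induction hx using Submodule.iSup_induction' with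
  | mem n x hx =>
    induction hy using Submodule.iSup_induction' with
    | mem m y hy => exact Submodule.mem_iSup_of_mem _ (mul_mem_Sn w M hx hy)
    | zero => rw [mul_zero]; exact Submodule.zero_mem _
    | add y z _ _ hy hz => rw [mul_add]; exact Submodule.add_mem _ hy hz
  | zero => rw [zero_mul]; exact Submodule.zero_mem _
  | add x z _ _ hx hz => rw [add_mul]; exact Submodule.add_mem _ hx hz

omit [DecidableEq B] [∀ b, DecidableEq (ι b)] in
theorem Stot_le_iSup (w : Var ι → A) (M : ∀ b, Matrix (Fin (r b)) (ι b) K) {x : Rg M}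
    (hx : x ∈ Stot M w) : x ∈ ⨆ n, Sn M w n := by
  induction hx using Algebra.adjoin_induction with
  | mem x hx =>
    obtain ⟨n, hn⟩ := Set.mem_iUnion.1 hx
    exact Submodule.mem_iSup_of_mem n hn
  | algebraMap c =>
    refine Submodule.mem_iSup_of_mem 0 ?_
    rw [Algebra.algebraMap_eq_smul_one]
    exact Submodule.smul_mem _ _ (one_mem_Sn w M)
  | add x y _ _ hx hy => exact Submodule.add_mem _ hx hy
  | mul x y _ _ hx hy => exact mul_mem_iSup w M hx hy

omit [DecidableEq B] [∀ b, DecidableEq (ι b)] in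
theorem map_grS (w : Var ι → A) (M : ∀ b, Matrix (Fin (r b)) (ι b) K) (n : ℕ) :
    (grS M w n).map (Stot M w).val.toLinearMap = Sn M w n := by
  apply le_antisymm
  · rintro _ ⟨x, hx, rfl⟩
    exact hx
  · intro x hx
    exact ⟨⟨x, Sn_le w M n hx⟩, hx, rfl⟩

/-- The graded pieces form an internal direct sum. -/
theorem isInternal [Nonempty B] (w : Var ι → A) (hw : ∀ v, 3 • w v = 0)
    (M : ∀ b, Matrix (Fin (r b)) (ι b) K) : DirectSum.IsInternal (grS M w) := by
  rw [DirectSum.isInternal_submodule_iff_iSupIndep_and_iSup_eq_top]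
  constructor
  · intro n
    rw [Submodule.disjoint_def]
    intro x hx hx'
    have h1 : (x : Rg M) ∈ ⨆ m, ⨆ (_ : m ≠ n), Sn M w m := by
      have h2 := Submodule.mem_map_of_mem (f := (Stot M w).val.toLinearMap) hx'
      simp only [Submodule.map_iSup, map_grS] at h2
      exact h2
    have h2 : (⨆ m, ⨆ (_ : m ≠ n), Sn M w m) ≤ LinearMap.ker (prn w hw M n) := by
      refine iSup_le fun m => iSup_le fun hm => ?_
      intro y hy
      exact prn_of_ne w hw M (Ne.symm hm) hy
    have h3 : prn w hw M n (x : Rg M) = 0 := h2 h1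
    have h4 : prn w hw M n (x : Rg M) = x := prn_of_mem w hw M n hx
    rw [h4] at h3
    exact Subtype.ext h3
  · rw [eq_top_iff]
    rintro x -
    have h1 := Stot_le_iSup w M x.2
    simp only [← map_grS, ← Submodule.map_iSup] at h1
    obtain ⟨y, hy, hyx⟩ := h1
    have : y = x := Subtype.ext hyx
    rwa [← this]

/-- **`S` is a graded algebra.** -/
theorem exists_graded [Nonempty B] (w : Var ι → A) (hw : ∀ v, 3 • w v = 0)
    (M : ∀ b, Matrix (Fin (r b)) (ι b) K) : Nonempty (GradedAlgebra (grS M w)) := by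
  classical
  exact ⟨{ gradedMonoid w M with toDecomposition := (isInternal w hw M).chooseDecomposition }⟩

end general

end Pool.Agent.T9h46.NA
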