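import Pool.Agent.T9h75.NA.Final
import Pool.Agent.T9h22.HS.Final
import Pool.Agent.T9h46.NA.Graded
import Pool.Agent.T9h46.Sop.Free
import Pool.Agent.T9h8.NA.Split

/-!
# MP_954e53_ag.NegativeAnswer: `S` is noetherian, of dimension 1745
-/

namespace Pool.Agent.T9h46.NA

open MvPolynomial Pool.Agent.T9h29.NA

universe u

section general

variable {K : Type u} [Field K] {B : Type} [Fintype B] [DecidableEq B] [Nonempty B] {ι : B → Type}
  [∀ b, Fintype (ι b)] [∀ b, DecidableEq (ι b)] {A : Type*} [AddCommGroup A] {r : B → ℕ}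

/-- `S` is free of finite rank over a polynomial ring in `∑ 2 r_b + 1` variables. -/
theorem exists_free (w : Var ι → A) (hw : ∀ v, 3 • w v = 0)
    (M : ∀ b, Matrix (Fin (r b)) (ι b) K) (hM : ∀ b, AllMinors (M b))
    (hc : ∀ b, Fintype.card (ι b) = 3 * r b + 1) (hsum : ∀ b, ∑ c, w ⟨b, c⟩ = 0) :
    ∃ (θ : Fin (∑ b, 2 * r b + 1) → Stot M w) (m : ℕ) (b : Fin m → Stot M w),
      IsFreeBasis K θ b := by
  obtain ⟨_⟩ := exists_graded w hw M
  obtain ⟨θ, m, b, _, _, _, h, _⟩ := Pool.Agent.T9h75.NA.freeConcl w hw M hM hc hsum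
    (Pool.Agent.T9h73.PP.segreData K fun b => 2 * r b) rfl
  exact ⟨θ, m, b, h⟩

theorem noeth (w : Var ι → A) (hw : ∀ v, 3 • w v = 0)
    (M : ∀ b, Matrix (Fin (r b)) (ι b) K) (hM : ∀ b, AllMinors (M b))
    (hc : ∀ b, Fintype.card (ι b) = 3 * r b + 1) (hsum : ∀ b, ∑ c, w ⟨b, c⟩ = 0) :
    IsNoetherianRing (Stot M w) := by
  obtain ⟨θ, m, b, h⟩ := exists_free w hw M hM hc hsum
  exact Sop.isNoetherianRing h

theorem dim [CharZero K] [IsAlgClosed K] (w : Var ι → A) (hw : ∀ v, 3 • w v = 0)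
    (M : ∀ b, Matrix (Fin (r b)) (ι b) K) (hM : ∀ b, AllMinors (M b))
    (hc : ∀ b, Fintype.card (ι b) = 3 * r b + 1) (hr : ∀ b, 1 ≤ r b)
    (hsum : ∀ b, ∑ c, w ⟨b, c⟩ = 0) :
    ringKrullDim (Stot M w) = ((∑ b, 2 * r b + 1 : ℕ) : WithBot ℕ∞) := by
  have := Pool.Agent.T9h8.NA.isDomain_Rg M hM hc hr
  obtain ⟨θ, m, b, h⟩ := exists_free w hw M hM hc hsum
  exact Pool.Agent.T9h22.HS.ringKrullDim_eq θ b h

end general

section concrete

variable {K : Type u} [Field K]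

instance nonemptyBlk : Nonempty Blk := by unfold Blk; infer_instance

theorem one_le_rk (b : Blk) : 1 ≤ rk b := by
  rcases b with ⟨i, b⟩
  cases b <;> simp [rk]

theorem noeth_wG (M : ∀ b, Matrix (Fin (rk b)) (Crd b) K) (hM : ∀ b, AllMinors (M b)) :
    IsNoetherianRing (Stot M wG) :=
  noeth wG Pool.Agent.T9h19.NA.wG_three M hM Pool.Agent.T9h19.NA.card_Crd
    Pool.Agent.T9h75.NA.sum_wG

theorem dim_wG' [CharZero K] [IsAlgClosed K] (M : ∀ b, Matrix (Fin (rk b)) (Crd b) K)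
    (hM : ∀ b, AllMinors (M b)) : ringKrullDim (Stot M wG) = ((1745 : ℕ) : WithBot ℕ∞) := by
  have h := dim wG Pool.Agent.T9h19.NA.wG_three M hM Pool.Agent.T9h19.NA.card_Crd one_le_rk
    Pool.Agent.T9h75.NA.sum_wG
  rw [Pool.Agent.T9h75.NA.sum_rk] at h
  exact h

theorem dim_wG [CharZero K] [IsAlgClosed K] (M : ∀ b, Matrix (Fin (rk b)) (Crd b) K)
    (hM : ∀ b, AllMinors (M b)) : ringKrullDim (Stot M wG) = 1745 := dim_wG' M hM

/-- `Q` is noetherian (all weights `0`). -/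
theorem noeth_zero (M : ∀ b, Matrix (Fin (rk b)) (Crd b) K) (hM : ∀ b, AllMinors (M b))
    {A : Type*} [AddCommGroup A] : IsNoetherianRing (Stot M (0 : Var Crd → A)) :=
  noeth 0 (by simp) M hM Pool.Agent.T9h19.NA.card_Crd (by simp)

theorem dim_zero [CharZero K] [IsAlgClosed K] (M : ∀ b, Matrix (Fin (rk b)) (Crd b) K)
    (hM : ∀ b, AllMinors (M b)) {A : Type*} [AddCommGroup A] :
    ringKrullDim (Stot M (0 : Var Crd → A)) = ((1745 : ℕ) : WithBot ℕ∞) := by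
  have h := dim (0 : Var Crd → A) (by simp) M hM Pool.Agent.T9h19.NA.card_Crd one_le_rk (by simp)
  rw [Pool.Agent.T9h75.NA.sum_rk] at h
  exact h

end concrete

end Pool.Agent.T9h46.NA
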