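import Pool.Agent.T9h22.RS.Defs

/-!
# Reduction of Kempf's criterion to a generator of the canonical module
-/

namespace Pool.Agent.T9h46.NA

open Pool.Agent.T9h22.RS KaehlerDifferential

section normal

variable {S : Type*} [CommRing S] [IsDomain S] [IsNoetherianRing S]

/-- In a noetherian normal domain, a prime of the form `(b : c)` has height one. -/
theorem height_eq_one_of_colon [IsIntegrallyClosed S] {b c : S} (hb : b ≠ 0) (P : Ideal S)
    [hPp : P.IsPrime] (hP : ∀ s, s ∈ P ↔ b ∣ s * c) : P.height = 1 := by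
  have hbP : b ∈ P := (hP b).2 ⟨c, rfl⟩
  have hcb : ¬ b ∣ c := by
    intro h
    apply hPp.ne_top
    rw [Ideal.eq_top_iff_one, hP, one_mul]
    exact h
  -- some element of `(c / b) P` is outside `P`
  have key : ∃ s ∈ P, ∃ t, t ∉ P ∧ s * c = b * t := by
    by_contra hcon
    push Not at hcon
    let F := FractionRing S
    let y : F := algebraMap S F c / algebraMap S F b
    have hbF : algebraMap S F b ≠ 0 := by
      rw [Ne, IsFractionRing.to_map_eq_zero_iff]
      exact hb
    have hint : IsIntegral S y := by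
      refine isIntegral_of_smul_mem_submodule (M := F)
        (Submodule.map (Algebra.linearMap S F) P) ?_ ?_ y ?_
      · intro h
        rw [Submodule.eq_bot_iff] at h
        exact hbF (h _ ⟨b, hbP, rfl⟩)
      · exact (IsNoetherian.noetherian P).map _
      · rintro _ ⟨s, hs, rfl⟩
        obtain ⟨t, ht⟩ := (hP s).1 hs
        have htP : t ∈ P := by
          by_contra h
          exact hcon s hs t h ht
        refine ⟨t, htP, ?_⟩
        have h1 : algebraMap S F s * algebraMap S F c = algebraMap S F b * algebraMap S F t := by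
          rw [← map_mul, ht, map_mul]
        change algebraMap S F t = algebraMap S F c / algebraMap S F b * algebraMap S F s
        rw [div_mul_eq_mul_div, eq_div_iff hbF]
        linear_combination -h1
    obtain ⟨z, hz⟩ := IsIntegrallyClosed.isIntegral_iff.1 hint
    apply hcb
    refine ⟨z, ?_⟩
    apply IsFractionRing.injective S F
    rw [map_mul, hz]
    change algebraMap S F c = algebraMap S F b * (algebraMap S F c / algebraMap S F b)
    rw [← mul_div_assoc, mul_div_cancel_left₀ _ hbF]
  obtain ⟨s₀, hs₀, t₀, ht₀, hst⟩ := key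
  have hmin : P ∈ (Ideal.span {s₀}).minimalPrimes := by
    refine ⟨⟨hPp, (Ideal.span_singleton_le_iff_mem _).2 hs₀⟩, ?_⟩
    rintro q ⟨hq, hsq⟩ hqP s hs
    obtain ⟨t, ht⟩ := (hP s).1 hs
    have h1 : s * t₀ = s₀ * t := by
      apply mul_left_cancel₀ hb
      linear_combination s₀ * ht - s * hst
    have h2 : s * t₀ ∈ q := by
      rw [h1]
      exact q.mul_mem_right _ ((Ideal.span_singleton_le_iff_mem _).1 hsq)
    exact (hq.mem_or_mem h2).resolve_right fun h => ht₀ (hqP h)
  have hle : P.height ≤ 1 := by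
    have : (Ideal.span {s₀}).IsPrincipal := ⟨⟨s₀, rfl⟩⟩
    exact Ideal.height_le_one_of_isPrincipal_of_mem_minimalPrimes _ _ hmin
  refine le_antisymm hle ?_
  rw [Order.one_le_iff_pos, pos_iff_ne_zero, Ne, Ideal.height_eq_zero_iff_eq_bot]
  intro h
  rw [h, Ideal.mem_bot] at hbP
  exact hb hbP

/-- A noetherian normal domain is the intersection of its local rings at primes of height one. -/
theorem mem_of_height_one [IsIntegrallyClosed S] (g : FractionRing S)
    (hg : ∀ (p : Ideal S) [p.IsPrime], p.height = 1 → g ∈ atPrime p) :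
    ∃ s : S, algebraMap S (FractionRing S) s = g := by
  obtain ⟨a, b, hb, rfl⟩ := IsFractionRing.div_surjective (A := S) g
  have hb0 : b ≠ 0 := nonZeroDivisors.ne_zero hb
  have hbF : algebraMap S (FractionRing S) b ≠ 0 := by
    rw [Ne, IsFractionRing.to_map_eq_zero_iff]
    exact hb0
  by_cases hdvd : b ∣ a
  · obtain ⟨z, rfl⟩ := hdvd
    refine ⟨z, ?_⟩
    rw [map_mul]
    field_simp
  · exfalso
    have ha : (Ideal.Quotient.mk (Ideal.span {b}) a) ≠ 0 := by
      rw [Ne, Ideal.Quotient.eq_zero_iff_mem, Ideal.mem_span_singleton]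
      exact hdvd
    obtain ⟨P, hP, hle⟩ := exists_le_isAssociatedPrime_of_isNoetherianRing S
      (M := S ⧸ Ideal.span {b}) (Ideal.Quotient.mk (Ideal.span {b}) a) ha
    obtain ⟨hPp, c', hc'⟩ := isAssociatedPrime_iff.1 hP
    obtain ⟨c, rfl⟩ := Ideal.Quotient.mk_surjective c'
    have hmem : ∀ (x s : S), s ∈ (⊥ : Submodule S (S ⧸ Ideal.span {b})).colon
        {Ideal.Quotient.mk (Ideal.span {b}) x} ↔ b ∣ s * x := by
      intro x s
      rw [Submodule.mem_colon_singleton, Submodule.mem_bot, ← Ideal.mem_span_singleton,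
        ← Ideal.Quotient.eq_zero_iff_mem, map_mul]
      rfl
    have h1 : P.height = 1 := height_eq_one_of_colon hb0 P fun s => by rw [hc', hmem]
    obtain ⟨a', s, hs, h2⟩ := hg P h1
    apply hs
    apply hle
    rw [hmem]
    refine ⟨a', ?_⟩
    apply IsFractionRing.injective S (FractionRing S)
    rw [map_mul, map_mul, ← h2]
    field_simp

end normal

/-- **Kempf's criterion from a generator of the canonical module.** -/
theorem kempf_of_generator {K : Type*} [Field K] {S : Type*} [CommRing S] [IsDomain S]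
    [Algebra K S] [IsNoetherianRing S] (hN : IsIntegrallyClosed S) {d : ℕ}
    (hd : ringKrullDim S = d) (ω₀ : ⋀[FractionRing S]^d Ω[FractionRing S⁄K]) (hne : ω₀ ≠ 0)
    (hex : ∃ p : Ideal S, p.IsPrime ∧ p.height = 1)
    (hC : ∀ (p : Ideal S) [p.IsPrime], p.height = 1 → ∀ x : Fin d → FractionRing S,
      (∀ i, x i ∈ atPrime p) → ∃ g ∈ atPrime p,
        exteriorPower.ιMulti (FractionRing S) d (fun i => D K (FractionRing S) (x i)) = g • ω₀)
    (hB : ∀ V : ValuationSubring (FractionRing S),
      (∀ s : S, algebraMap S (FractionRing S) s ∈ V) → IsDiscreteValuationRing V →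
      ω₀ ∈ Reg K V.toSubring d) : HasRationalSingularities K S where
  normal := hN
  kempf := by
    intro d' hd' ω hω V hV hVd
    have hdd : d' = d := by
      have : ((d' : ℕ) : WithBot ℕ∞) = (d : ℕ) := by rw [← hd', ← hd]
      exact_mod_cast this
    subst hdd
    have key : ∀ (p : Ideal S) [p.IsPrime], p.height = 1 → ∃ g ∈ atPrime p, ω = g • ω₀ := by
      intro p hp h1
      have h2 := hω p h1
      clear hω
      rw [Reg] at h2
      induction h2 using Submodule.span_induction with
      | mem x hx =>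
        obtain ⟨y, hy, rfl⟩ := hx
        exact hC p h1 y hy
      | zero => exact ⟨0, Subring.zero_mem _, by rw [zero_smul]⟩
      | add x y _ _ hx hy =>
        obtain ⟨g, hg, rfl⟩ := hx
        obtain ⟨g', hg', rfl⟩ := hy
        exact ⟨g + g', Subring.add_mem _ hg hg', by rw [add_smul]⟩
      | smul v x _ hx =>
        obtain ⟨g, hg, rfl⟩ := hx
        refine ⟨v * g, Subring.mul_mem _ v.2 hg, ?_⟩
        rw [mul_smul]
        rfl
    obtain ⟨p₁, hp₁, h1⟩ := hex
    obtain ⟨g, hg, hgω⟩ := @key p₁ hp₁ h1
    have hall : ∀ (p : Ideal S) [p.IsPrime], p.height = 1 → g ∈ atPrime p := by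
      intro p hp h2
      obtain ⟨g', hg', hg'ω⟩ := key p h2
      have h3 : g = g' := by
        have h4 : g • ω₀ = g' • ω₀ := by rw [← hgω, ← hg'ω]
        exact smul_left_injective (FractionRing S) hne h4
      rwa [h3]
    obtain ⟨s, rfl⟩ := mem_of_height_one g hall
    rw [hgω]
    exact Submodule.smul_mem _ (⟨_, hV s⟩ : V.toSubring) (hB V hV hVd)

end Pool.Agent.T9h46.NA
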